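import Mathlib
import Pool.Agent.Lib.MP_696bea_an.Assemble

/-!
Q1 of MP_696bea_an: strong failure of pointwise convergence of ergodic averages along
`Omega (m ^ 2 + n ^ 2)`.

`ArithmeticFunction.cardFactors k` is the number of prime factors of `k` with multiplicity,
`Ergodic T μ` is Mathlib's notion (measurable, measure preserving, every measurable `B` with
`T ⁻¹' B = B` is null or conull); `T` need not be invertible.

Non-atomic: either the sigma-algebra contains a countable family of sets separating points
(for example any standard Borel space) and all points have measure zero, or, on an arbitrary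
probability space, every measurable set of positive measure splits into two measurable pieces
of positive measure.
-/

set_option autoImplicit false

open MeasureTheory Filter

namespace Pool.Agent.Results.MP_696bea_an.OmegaSumTwoSquares

theorem result {X : Type*} [MeasurableSpace X] (μ : Measure X) [IsProbabilityMeasure μ]
    (T : X → X) (hT : Ergodic T μ)
    (hna : (MeasurableSpace.CountablySeparated X ∧ ∀ x : X, μ {x} = 0) ∨
      (∀ s : Set X, MeasurableSet s → μ s ≠ 0 →
        ∃ t ⊆ s, MeasurableSet t ∧ μ t ≠ 0 ∧ μ (s \ t) ≠ 0)) :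
    ∃ A : Set X, MeasurableSet A ∧ ∀ᵐ x ∂μ,
      limsup (fun N : ℕ => (∑ m ∈ Finset.Icc 1 N, ∑ n ∈ Finset.Icc 1 N,
        A.indicator (fun _ => (1 : ℝ))
          (T^[ArithmeticFunction.cardFactors (m ^ 2 + n ^ 2)] x)) / (N : ℝ) ^ 2) atTop = 1 ∧
      liminf (fun N : ℕ => (∑ m ∈ Finset.Icc 1 N, ∑ n ∈ Finset.Icc 1 N,
        A.indicator (fun _ => (1 : ℝ))
          (T^[ArithmeticFunction.cardFactors (m ^ 2 + n ^ 2)] x)) / (N : ℝ) ^ 2) atTop = 0 := by
  have hsmall : ∀ ε : ENNReal, 0 < ε → ∃ C, MeasurableSet C ∧ 0 < μ C ∧ μ C < ε := by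
    rcases hna with h | h
    · exact Pool.Agent.Lib.MP_696bea_an.small_of_countablySeparated μ h.1 h.2
    · exact Pool.Agent.Lib.MP_696bea_an.small_of_nonatomic μ h
  obtain ⟨A, hA, hae⟩ := Pool.Agent.Lib.MP_696bea_an.sweep hT hsmall
    Pool.Agent.Lib.MP_696bea_an.wid Pool.Agent.Lib.MP_696bea_an.wid_small
  refine ⟨A, hA, ?_⟩
  filter_upwards [hae] with x hx
  exact ⟨Pool.Agent.Lib.MP_696bea_an.limsup_eq_one T A x hx.1,
    Pool.Agent.Lib.MP_696bea_an.liminf_eq_zero T A x hx.2⟩

end Pool.Agent.Results.MP_696bea_an.OmegaSumTwoSquares
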